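import Pool.Agent.Helper25.HL.Goals3

/-!
# Packet HL-PG: the pigeonhole argument
-/

set_option autoImplicit false

open Filter Topology

noncomputable section

namespace Pool.Agent.Helper33.HL

open Pool.Agent.Helper25.HL

/-- Disjoint windows have summable masses. -/
theorem win_sum_le (μ : ℕ → ℝ) (h0 : ∀ k, 0 ≤ μ k) (a b : ℕ → ℕ) (hab : ∀ i, a i + 1 < b i)
    (hba : ∀ i, b i ≤ a (i + 1)) (n : ℕ) :
    ∑ i ∈ Finset.range n, ∑ k ∈ Finset.Ico (a i) (b i), μ k ≤ ∑ k ∈ Finset.range (a n), μ k := by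
  induction n with
  | zero =>
    rw [Finset.sum_range_zero]
    exact Finset.sum_nonneg fun k _ => h0 k
  | succ n ih =>
    rw [Finset.sum_range_succ]
    have h1 : ∑ k ∈ Finset.range (a n), μ k + ∑ k ∈ Finset.Ico (a n) (b n), μ k =
        ∑ k ∈ Finset.range (b n), μ k :=
      Finset.sum_range_add_sum_Ico μ (by have := hab n; omega)
    have h2 : ∑ k ∈ Finset.range (b n), μ k ≤ ∑ k ∈ Finset.range (a (n + 1)), μ k :=
      Finset.sum_le_sum_of_subset_of_nonneg
        (Finset.range_subset_range.mpr (hba n)) (fun k _ _ => h0 k)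
    linarith

/-- The tail of a sum. -/
theorem tail_eq (μ : ℕ → ℝ) (hs : Summable μ) (c b : ℕ) (hcb : c + 1 < b) :
    (∑' k, if c + 1 < k ∧ b ≤ k then μ k else 0) = ∑' k, μ (k + b) := by
  have h1 : Summable (fun k => if c + 1 < k ∧ b ≤ k then μ k else 0) := by
    have := hs.indicator {k | c + 1 < k ∧ b ≤ k}
    refine this.congr ?_
    intro k
    rw [Set.indicator_apply]
    rfl
  rw [← h1.sum_add_tsum_nat_add b]
  have h2 : ∑ i ∈ Finset.range b, (if c + 1 < i ∧ b ≤ i then μ i else 0) = 0 := by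
    refine Finset.sum_eq_zero fun i hi => ?_
    rw [if_neg]
    have := Finset.mem_range.mp hi
    omega
  rw [h2, zero_add]
  refine tsum_congr fun k => ?_
  rw [if_pos]
  omega

theorem pg (h1 : S_MS) (h2 : S_CU) (h3 : S_QL) : S_PG := by
  intro P D W ω u f hN
  obtain ⟨m0, -, ms, m2, -⟩ := h1 P D ω u f hN
  have hql := h3 P D ω u f hN
  have hcu := fun (c m J₁ : ℕ) (K ε R : ℝ) hK hc => h2 P D c m J₁ K ε R hK hc ω u f hN
  set μ := mass P D ω u f with hμ
  set t : ℂ := ∑' i, (ω i : ℂ) * f i (u i) with ht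
  have hai : ∀ i, i ≤ W.a i := by
    intro i
    induction i with
    | zero => exact Nat.zero_le _
    | succ i ih =>
      have h1 := W.hab i
      have h2 := W.hba i
      omega
  set M : ℕ → ℝ := fun i => ∑ k ∈ Finset.Ico (W.a i) (W.b i), μ k with hM
  have hM0 : ∀ i, 0 ≤ M i := fun i => Finset.sum_nonneg fun k _ => m0 k
  have hMs : Summable M := by
    refine summable_of_sum_range_le (c := 2) hM0 ?_
    intro n
    refine (win_sum_le μ m0 W.a W.b W.hab W.hba n).trans ?_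
    exact (ms.sum_le_tsum _ (fun k _ => m0 k)).trans m2
  have hfreq : ∀ i₀, ∃ i, i₀ ≤ i ∧ M i ≤ W.η i * W.K i / 2 := by
    intro i₀
    by_contra hcon
    push Not at hcon
    apply W.hdiv
    rw [← summable_nat_add_iff i₀]
    refine Summable.of_nonneg_of_le (fun i => mul_nonneg (W.hη _).le (W.hK _)) ?_
      (((summable_nat_add_iff i₀).mpr hMs).mul_left 2)
    intro i
    have := hcon (i + i₀) (by omega)
    linarith
  have hpick : ∀ i, M i ≤ W.η i * W.K i / 2 → ∃ c, W.a i ≤ c ∧ c + 1 < W.b i ∧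
      μ c + μ (c + 1) ≤ W.K i / 2 ^ (D (W.a i)).J := by
    intro i hi
    by_contra hcon
    push Not at hcon
    have hab := W.hab i
    have e1 : ∑ c ∈ Finset.Ico (W.a i) (W.b i - 1), W.K i / 2 ^ (D (W.a i)).J <
        ∑ c ∈ Finset.Ico (W.a i) (W.b i - 1), (μ c + μ (c + 1)) := by
      refine Finset.sum_lt_sum_of_nonempty ?_ ?_
      · rw [Finset.nonempty_Ico]
        omega
      · intro c hc
        rw [Finset.mem_Ico] at hc
        exact hcon c hc.1 (by omega)
    have e2 : ∑ c ∈ Finset.Ico (W.a i) (W.b i - 1), μ c ≤ M i :=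
      Finset.sum_le_sum_of_subset_of_nonneg
        (Finset.Ico_subset_Ico_right (by omega)) (fun k _ _ => m0 k)
    have e3 : ∑ c ∈ Finset.Ico (W.a i) (W.b i - 1), μ (c + 1) ≤ M i := by
      rw [Finset.sum_Ico_add' μ (W.a i) (W.b i - 1) 1]
      refine Finset.sum_le_sum_of_subset_of_nonneg ?_ (fun k _ _ => m0 k)
      intro k hk
      rw [Finset.mem_Ico] at hk ⊢
      omega
    rw [Finset.sum_add_distrib, Finset.sum_const, Nat.card_Ico, nsmul_eq_mul] at e1
    have hlen := W.hlen i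
    have e4 : W.η i * 2 ^ (D (W.a i)).J ≤ ((W.b i - 1 - W.a i : ℕ) : ℝ) := by
      have : ((W.b i - 1 - W.a i : ℕ) : ℝ) = (W.b i : ℝ) - 1 - W.a i := by
        rw [Nat.cast_sub (by omega), Nat.cast_sub (by omega)]
        simp
      rw [this]
      linarith
    have hpow : (0 : ℝ) < 2 ^ (D (W.a i)).J := by positivity
    have e5 : W.η i * W.K i ≤ ((W.b i - 1 - W.a i : ℕ) : ℝ) * (W.K i / 2 ^ (D (W.a i)).J) := by
      have e6 : W.η i * W.K i = (W.η i * 2 ^ (D (W.a i)).J) * (W.K i / 2 ^ (D (W.a i)).J) := by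
        field_simp
      rw [e6]
      exact mul_le_mul_of_nonneg_right e4 (div_nonneg (W.hK i) hpow.le)
    linarith
  set B : ℕ → ℝ := fun i => 4 * (Real.sqrt (1 + W.K i) * W.ε i) +
    2 * ((1 + W.K i) * W.R i / 2 ^ (D (W.a i)).J) +
    Real.sqrt (27 / 2 * ((4 : ℝ) ^ (W.J₁ i) * (W.η i * W.K i)) +
      20 * ∑' k, μ (k + W.b i)) with hB
  have hb : Tendsto W.b atTop atTop := by
    refine tendsto_atTop_mono (f := id) (fun i => ?_) tendsto_id
    have h1 := W.hab i
    have h2 := hai i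
    simp only [id]
    omega
  have hBlim : Tendsto B atTop (𝓝 0) := by
    have l1 := (tendsto_sum_nat_add μ).comp hb
    have l2 := ((W.hlim1.const_mul (27 / 2)).add (l1.const_mul 20)).sqrt
    have l3 := ((W.hlim2.const_mul 4).add (W.hlim3.const_mul 2)).add l2
    simp only [mul_zero, add_zero, Real.sqrt_zero] at l3
    exact l3
  have hbound : ∀ i c, W.a i ≤ c → c + 1 < W.b i → M i ≤ W.η i * W.K i / 2 →
      μ c + μ (c + 1) ≤ W.K i / 2 ^ (D (W.a i)).J →
      ‖∑' i, (ω i : ℂ) * f i (Qb P D (c + 1) (u i))‖ ≤ B i := by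
    intro i c hc1 hc2 hMi hmu
    have hJ : (D c).J = (D (W.a i)).J := W.hJw i c hc1 (by omega)
    have := hcu c (W.b i) (W.J₁ i) (W.K i) (W.ε i) (W.R i) (W.hK i) (W.hcut i c hc1 hc2)
      (by rw [hJ]; exact hmu)
    refine this.trans ?_
    rw [hJ, tail_eq μ ms c (W.b i) hc2]
    have e1 : ∑ k ∈ Finset.Ioo (c + 1) (W.b i), μ k ≤ W.η i * W.K i / 2 := by
      refine le_trans ?_ hMi
      refine Finset.sum_le_sum_of_subset_of_nonneg ?_ (fun k _ _ => m0 k)
      intro k hk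
      rw [Finset.mem_Ioo] at hk
      rw [Finset.mem_Ico]
      omega
    have e2 : Real.sqrt (27 * 4 ^ (W.J₁ i) * ∑ k ∈ Finset.Ioo (c + 1) (W.b i), μ k +
        20 * ∑' k, μ (k + W.b i)) ≤
        Real.sqrt (27 / 2 * ((4 : ℝ) ^ (W.J₁ i) * (W.η i * W.K i)) +
          20 * ∑' k, μ (k + W.b i)) := by
      apply Real.sqrt_le_sqrt
      have e3 : (27 : ℝ) * 4 ^ (W.J₁ i) * ∑ k ∈ Finset.Ioo (c + 1) (W.b i), μ k ≤
          27 * 4 ^ (W.J₁ i) * (W.η i * W.K i / 2) :=
        mul_le_mul_of_nonneg_left e1 (by positivity)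
      linarith
    have e4 : 2 * (1 + W.K i) * W.R i / 2 ^ (D (W.a i)).J =
        2 * ((1 + W.K i) * W.R i / 2 ^ (D (W.a i)).J) := by ring
    simp only [hB]
    rw [e4, mul_assoc 4]
    linarith
  by_contra htne
  have htpos : 0 < ‖t‖ := norm_pos_iff.mpr htne
  have ev1 : ∀ᶠ c in atTop, ‖t‖ / 2 < ‖∑' i, (ω i : ℂ) * f i (Qb P D (c + 1) (u i))‖ :=
    hql.norm.eventually (lt_mem_nhds (by linarith))
  have ev2 : ∀ᶠ i in atTop, B i < ‖t‖ / 2 := hBlim.eventually (gt_mem_nhds (by linarith))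
  obtain ⟨c₀, hc₀⟩ := eventually_atTop.mp ev1
  obtain ⟨i₁, hi₁⟩ := eventually_atTop.mp ev2
  obtain ⟨i, hi, hMi⟩ := hfreq (max c₀ i₁)
  obtain ⟨c, hc1, hc2, hc3⟩ := hpick i hMi
  have g1 := hbound i c hc1 hc2 hMi hc3
  have g2 := hi₁ i (le_trans (le_max_right _ _) hi)
  have g3 := hc₀ c ((le_trans (le_max_left _ _) hi).trans ((hai i).trans hc1))
  linarith

end Pool.Agent.Helper33.HL
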